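import Mathlib
import Pool.Agent.TH577.Tight
import Pool.Agent.Helper257.ForceCH

/-!
# The tightness of `P(X)` at a Dirac measure can be uncountable

First half: some forcing notion forces the continuum hypothesis over any ground model.  Second half:
the continuum hypothesis gives a compact Hausdorff Fréchet–Urysohn space `X` (an adequate Corson
compact space), a point `x` and a set `A` of regular Borel probability measures such that the Dirac
measure at `x` lies in the weak closure of `A`, and in the weak closure of no countable subset of
`A`.

Let `H a`, `a < ω₁`, be compact subsets of `[0,1]` of measure `> 1/2` such that each point lies in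
countably many of them.  `X` is the space of the sets `I` with `{H a : a ∈ I}` centered; such a set
is countable by compactness.  The measure `μ b` is the law of `{a ≥ b : t ∈ H a}` for `t` uniform in
`[0,1]`.  The measures `μ b` converge to the Dirac measure at the empty set as `b → ω₁`, and
`μ b {I : a ∈ I} > 1/2` for all `b ≤ a`.
-/

set_option autoImplicit false

open Set Filter Topology MeasureTheory Cardinal

namespace Pool.Agent.Results.MP_aebb62_gt.ConsistentlyNo

open Pool.Agent.Helper257.ForceCH (OmegaOnePreserved CHHolds Om)
open Pool.Agent.TH577.Tight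

theorem om_countable_Iio (k : Om) : (Iio k).Countable := by
  rw [← Cardinal.le_aleph0_iff_set_countable, ← Cardinal.lt_aleph_one_iff]
  simpa using Cardinal.mk_Iio_lt k (by simp)

theorem om_countable_Iic (k : Om) : (Iic k).Countable := by
  rw [← Iio_insert]
  exact (om_countable_Iio k).insert k

theorem om_bounded (s : Set Om) (hs : s.Countable) : ∃ k : Om, ∀ i ∈ s, i < k := by
  by_contra hcon
  push Not at hcon
  have h1 : (univ : Set Om) ⊆ ⋃ i ∈ s, Iic i := by
    intro k _
    obtain ⟨i, hi, hki⟩ := hcon k
    exact mem_biUnion hi hki
  have h2 : (⋃ i ∈ s, Iic i).Countable := hs.biUnion fun i _ => om_countable_Iic i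
  have h3 : (univ : Set Om).Countable := h2.mono h1
  rw [← Cardinal.le_aleph0_iff_set_countable, Cardinal.mk_univ] at h3
  simp at h3

theorem exists_e (hCH : (2 : Cardinal.{0}) ^ (ℵ₀ : Cardinal.{0}) = ℵ₁) :
    ∃ e : Om → unitInterval, Function.Surjective e := by
  have h1 : Cardinal.mk Om = ℵ₁ := by simp
  have h2 : Cardinal.mk unitInterval = ℵ₁ := by
    rw [← hCH, Cardinal.two_power_aleph0]
    exact Cardinal.mk_Icc_real zero_lt_one
  obtain ⟨e⟩ := Cardinal.eq.1 (h1.trans h2.symm)
  exact ⟨e, e.surjective⟩

/-- **Main theorem.**  (A) Some notion of forcing `P` of type `Type` forces, below every condition,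
that `ω₁` is preserved and that the continuum hypothesis holds (a theorem on the explicit forcing
relation).  (B) The continuum hypothesis implies that there are a compact Hausdorff space `X` which
is Fréchet–Urysohn (in particular of countable tightness), a point `x` of `X` and a set `A` of
regular Borel probability measures on `X` such that the Dirac measure at `x` is in the weak closure
of `A` but not in the weak closure of any countable subset of `A`. -/
theorem result :
    (∃ (P : Type) (_ : Preorder P), Nonempty P ∧
      ∀ p : P, p ∈ OmegaOnePreserved P ∧ p ∈ CHHolds P) ∧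
    ((2 : Cardinal.{0}) ^ (ℵ₀ : Cardinal.{0}) = ℵ₁ →
      ∃ (X : Type) (_ : TopologicalSpace X) (_ : CompactSpace X) (_ : T2Space X)
        (_ : MeasurableSpace X) (_ : BorelSpace X),
        FrechetUrysohnSpace X ∧
        (∀ (S : Set X) (y : X), y ∈ closure S → ∃ T ⊆ S, T.Countable ∧ y ∈ closure T) ∧
        ∃ (x : X) (A : Set (ProbabilityMeasure X)),
          (∀ μ ∈ A, (μ : Measure X).Regular) ∧
          (⟨Measure.dirac x, inferInstance⟩ : ProbabilityMeasure X) ∈ closure A ∧
          ∀ B ⊆ A, B.Countable →
            (⟨Measure.dirac x, inferInstance⟩ : ProbabilityMeasure X) ∉ closure B) := by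
  refine ⟨?_, fun hCH => ?_⟩
  · obtain ⟨P, hP, hne, h⟩ := Pool.Agent.Helper257.ForceCH.exists_forcing
    exact ⟨P, hP, hne, fun p => ⟨(h p).1, (h p).2.2⟩⟩
  · obtain ⟨e, he⟩ := exists_e hCH
    obtain ⟨D⟩ := exists_dat e he om_countable_Iic om_bounded
    have hne : Nonempty Om := by
      obtain ⟨k, -⟩ := om_bounded ∅ countable_empty
      exact ⟨k⟩
    refine ⟨D.X, inferInstance, inferInstance, inferInstance, inferInstance, inferInstance,
      ⟨fun S y hy => ?_⟩, fun S y hy => ?_, D.zero, range D.mu, ?_, ?_, ?_⟩
    · obtain ⟨u, hu, hlim⟩ := D.seq S y hy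
      exact ⟨u, hu, hlim⟩
    · obtain ⟨u, hu, hlim⟩ := D.seq S y hy
      exact ⟨range u, range_subset_iff.2 hu, countable_range u,
        mem_closure_of_tendsto hlim (Eventually.of_forall fun n => mem_range_self n)⟩
    · rintro _ ⟨b, rfl⟩
      exact D.mu_regular b
    · have h : D.dz ∈ closure (range D.mu) :=
        mem_closure_of_tendsto D.tendsto_mu (Eventually.of_forall fun b => mem_range_self b)
      exact h
    · intro B hB hBc
      exact D.not_mem_closure B hB hBc

end Pool.Agent.Results.MP_aebb62_gt.ConsistentlyNo
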